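import Mathlib

set_option autoImplicit false

/-!
# Eighty-nine boxes that cover the two-dimensional skeleton of the tesseract

Coordinates are scaled by `700`: the tesseract is `[0,1400]^4`. Every box of the list has total
edge length less than `1400`; together they cover the two-dimensional skeleton. Both facts are
verified by evaluation, the second one by a sweep over each of the 24 squares.
-/

namespace Pool.Agent.H8C4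

/-- a box with integral vertices -/
structure Bx where
  l0 : ℕ
  h0 : ℕ
  l1 : ℕ
  h1 : ℕ
  l2 : ℕ
  h2 : ℕ
  l3 : ℕ
  h3 : ℕ
deriving DecidableEq

def Bx.lo (b : Bx) (i : Fin 4) : ℕ :=
  match i with
  | 0 => b.l0
  | 1 => b.l1
  | 2 => b.l2
  | 3 => b.l3

def Bx.hi (b : Bx) (i : Fin 4) : ℕ :=
  match i with
  | 0 => b.h0
  | 1 => b.h1
  | 2 => b.h2
  | 3 => b.h3

/-- the boxes -/
def bxs : List Bx := [
  ⟨0, 317, 0, 358, 0, 348, 0, 374⟩,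
  ⟨1092, 1400, 0, 363, 0, 351, 0, 374⟩,
  ⟨0, 350, 1060, 1400, 0, 351, 0, 356⟩,
  ⟨1042, 1400, 1068, 1400, 0, 351, 0, 356⟩,
  ⟨0, 317, 0, 356, 1050, 1400, 0, 374⟩,
  ⟨1092, 1400, 0, 363, 1055, 1400, 0, 381⟩,
  ⟨0, 350, 1060, 1400, 1049, 1400, 0, 356⟩,
  ⟨1040, 1400, 1068, 1400, 1049, 1400, 0, 354⟩,
  ⟨0, 349, 0, 358, 0, 354, 1064, 1400⟩,
  ⟨1047, 1400, 0, 354, 0, 355, 1065, 1400⟩,
  ⟨0, 352, 1055, 1400, 0, 351, 1052, 1400⟩,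
  ⟨1047, 1400, 1055, 1400, 0, 351, 1052, 1400⟩,
  ⟨0, 349, 0, 356, 1046, 1400, 1062, 1400⟩,
  ⟨1047, 1400, 0, 354, 1043, 1400, 1067, 1400⟩,
  ⟨0, 352, 1055, 1400, 1049, 1400, 1052, 1400⟩,
  ⟨1047, 1400, 1055, 1400, 1049, 1400, 1052, 1400⟩,
  ⟨316, 1093, 0, 164, 0, 82, 0, 374⟩,
  ⟨349, 1043, 1400, 1400, 0, 348, 0, 356⟩,
  ⟨316, 1093, 0, 164, 1318, 1400, 0, 374⟩,
  ⟨349, 1041, 1400, 1400, 1049, 1400, 0, 354⟩,
  ⟨348, 1048, 0, 10, 0, 354, 1068, 1400⟩,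
  ⟨351, 1048, 1399, 1400, 0, 351, 1052, 1400⟩,
  ⟨348, 1048, 0, 10, 1046, 1400, 1067, 1400⟩,
  ⟨351, 1048, 1400, 1400, 1049, 1400, 1052, 1400⟩,
  ⟨0, 317, 357, 1061, 0, 20, 0, 356⟩,
  ⟨1092, 1400, 362, 1069, 0, 8, 0, 374⟩,
  ⟨0, 317, 355, 1061, 1399, 1400, 0, 374⟩,
  ⟨1092, 1400, 362, 1069, 1384, 1400, 0, 367⟩,
  ⟨0, 349, 357, 1056, 0, 0, 1051, 1400⟩,
  ⟨1047, 1400, 353, 1056, 0, 7, 1065, 1400⟩,
  ⟨0, 349, 355, 1056, 1390, 1400, 1062, 1400⟩,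
  ⟨1047, 1400, 353, 1056, 1391, 1400, 1067, 1400⟩,
  ⟨0, 317, 0, 358, 347, 1051, 0, 18⟩,
  ⟨1092, 1400, 0, 363, 350, 1056, 0, 21⟩,
  ⟨0, 350, 1060, 1400, 350, 1050, 0, 8⟩,
  ⟨1042, 1400, 1068, 1400, 350, 1050, 0, 8⟩,
  ⟨0, 347, 0, 356, 353, 1047, 1400, 1400⟩,
  ⟨1047, 1400, 0, 354, 354, 1044, 1400, 1400⟩,
  ⟨0, 352, 1055, 1400, 350, 1050, 1399, 1400⟩,
  ⟨1047, 1400, 1055, 1400, 350, 1050, 1399, 1400⟩,
  ⟨0, 0, 0, 358, 0, 348, 373, 1065⟩,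
  ⟨1400, 1400, 0, 353, 0, 351, 373, 1066⟩,
  ⟨0, 3, 1055, 1400, 0, 351, 355, 1053⟩,
  ⟨1397, 1400, 1055, 1400, 0, 351, 355, 1053⟩,
  ⟨0, 0, 0, 356, 1050, 1400, 373, 1063⟩,
  ⟨1400, 1400, 0, 363, 1055, 1400, 380, 1068⟩,
  ⟨0, 8, 1060, 1400, 1049, 1400, 355, 1053⟩,
  ⟨1399, 1400, 1055, 1400, 1049, 1400, 353, 1053⟩,
  ⟨316, 1093, 163, 782, 0, 0, 0, 0⟩,
  ⟨316, 1093, 781, 1400, 0, 0, 0, 0⟩,
  ⟨316, 1093, 163, 782, 1400, 1400, 0, 0⟩,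
  ⟨316, 1093, 781, 1400, 1400, 1400, 0, 0⟩,
  ⟨348, 1048, 9, 705, 0, 0, 1400, 1400⟩,
  ⟨348, 1048, 704, 1400, 0, 0, 1400, 1400⟩,
  ⟨348, 1048, 9, 705, 1400, 1400, 1400, 1400⟩,
  ⟨348, 1048, 704, 1400, 1400, 1400, 1400, 1400⟩,
  ⟨316, 1093, 0, 0, 81, 700, 0, 0⟩,
  ⟨316, 1093, 0, 0, 699, 1319, 0, 0⟩,
  ⟨349, 1043, 1400, 1400, 347, 1050, 0, 0⟩,
  ⟨346, 1048, 0, 0, 353, 1047, 1400, 1400⟩,
  ⟨351, 1048, 1400, 1400, 350, 1050, 1400, 1400⟩,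
  ⟨0, 700, 0, 0, 0, 0, 373, 1069⟩,
  ⟨700, 1400, 0, 0, 0, 0, 373, 1069⟩,
  ⟨2, 700, 1400, 1400, 0, 0, 355, 1053⟩,
  ⟨699, 1398, 1400, 1400, 0, 0, 355, 1053⟩,
  ⟨0, 700, 0, 0, 1400, 1400, 373, 1068⟩,
  ⟨700, 1400, 0, 0, 1400, 1400, 373, 1068⟩,
  ⟨7, 704, 1400, 1400, 1400, 1400, 353, 1053⟩,
  ⟨703, 1400, 1400, 1400, 1400, 1400, 353, 1053⟩,
  ⟨0, 0, 357, 1061, 19, 711, 0, 0⟩,
  ⟨0, 0, 355, 1061, 710, 1400, 0, 0⟩,
  ⟨1400, 1400, 362, 1069, 7, 697, 0, 0⟩,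
  ⟨1400, 1400, 362, 1069, 696, 1385, 0, 0⟩,
  ⟨0, 0, 355, 1056, 0, 696, 1400, 1400⟩,
  ⟨0, 0, 355, 1056, 695, 1391, 1400, 1400⟩,
  ⟨1400, 1400, 353, 1056, 6, 699, 1400, 1400⟩,
  ⟨1400, 1400, 353, 1056, 698, 1392, 1400, 1400⟩,
  ⟨0, 0, 357, 1056, 0, 0, 355, 1052⟩,
  ⟨1400, 1400, 352, 1056, 0, 0, 373, 1066⟩,
  ⟨0, 0, 355, 1061, 1400, 1400, 373, 1063⟩,
  ⟨1400, 1400, 362, 1056, 1400, 1400, 366, 1068⟩,
  ⟨0, 0, 0, 0, 347, 1051, 17, 709⟩,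
  ⟨0, 0, 0, 0, 347, 1051, 708, 1400⟩,
  ⟨1400, 1400, 0, 0, 350, 1056, 20, 711⟩,
  ⟨1400, 1400, 0, 0, 350, 1056, 710, 1400⟩,
  ⟨0, 0, 1400, 1400, 350, 1050, 7, 704⟩,
  ⟨0, 0, 1400, 1400, 350, 1050, 703, 1400⟩,
  ⟨1400, 1400, 1400, 1400, 350, 1050, 7, 704⟩,
  ⟨1400, 1400, 1400, 1400, 350, 1050, 703, 1400⟩]

/-- the box is not degenerate in the wrong direction and its total edge length is small -/
def Bx.ok (b : Bx) : Bool :=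
  Nat.ble b.l0 b.h0 && Nat.ble b.l1 b.h1 && Nat.ble b.l2 b.h2 && Nat.ble b.l3 b.h3 &&
    Nat.blt (b.h0 + b.h1 + b.h2 + b.h3) (1400 + b.l0 + b.l1 + b.l2 + b.l3)

/-- rectangles: `(lo, hi, lo', hi')` -/
abbrev Rc := ℕ × ℕ × ℕ × ℕ

/-- the rectangles in which the boxes meet a square of the skeleton -/
def face (i j k l : Fin 4) (s t : ℕ) : List Bx → List Rc
  | [] => []
  | b :: L =>
    bif Nat.ble (b.lo i) s && Nat.ble s (b.hi i) && Nat.ble (b.lo j) t && Nat.ble t (b.hi j) then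
      (b.lo k, b.hi k, b.lo l, b.hi l) :: face i j k l s t L
    else face i j k l s t L

def top (c : ℕ) : List Rc → ℕ
  | [] => c
  | r :: A =>
    bif Nat.ble r.2.2.1 c && Nat.blt (top c A) r.2.2.2 then r.2.2.2 else top c A

def chain (A : List Rc) : ℕ → ℕ → Bool
  | 0, _ => false
  | f + 1, c => Nat.ble 1400 c || (Nat.blt c (top c A) && chain A f (top c A))

def act (x : ℕ) : List Rc → List Rc
  | [] => []
  | r :: A => bif Nat.ble r.1 x && Nat.blt x r.2.1 then r :: act x A else act x A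

def mh : List Rc → ℕ
  | [] => 1400
  | r :: A => bif Nat.blt r.2.1 (mh A) then r.2.1 else mh A

def sweep (R : List Rc) : ℕ → ℕ → Bool
  | 0, _ => false
  | f + 1, x =>
    Nat.ble 1400 x ||
      (chain (act x R) 20 0 && Nat.blt x (mh (act x R)) && sweep R f (mh (act x R)))

def faceOK (i j k l : Fin 4) (L : List Bx) : Bool :=
  sweep (face i j k l 0 0 L) 40 0 && sweep (face i j k l 0 1400 L) 40 0 &&
    sweep (face i j k l 1400 0 L) 40 0 && sweep (face i j k l 1400 1400 L) 40 0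

theorem bxs_length : bxs.length = 89 := by decide +kernel

theorem bxs_ok : bxs.all Bx.ok = true := by decide +kernel

theorem ok01 : faceOK 0 1 2 3 bxs = true := by decide +kernel
theorem ok02 : faceOK 0 2 1 3 bxs = true := by decide +kernel
theorem ok03 : faceOK 0 3 1 2 bxs = true := by decide +kernel
theorem ok12 : faceOK 1 2 0 3 bxs = true := by decide +kernel
theorem ok13 : faceOK 1 3 0 2 bxs = true := by decide +kernel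
theorem ok23 : faceOK 2 3 0 1 bxs = true := by decide +kernel

end Pool.Agent.H8C4
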