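import Mathlib
import Pool.Graph.R_seed8.Y512.Reduce
import Pool.Agent.Helper8.C4.Boxes

set_option autoImplicit false

/-!
# The boxes cover the skeleton; ninety-three translates in dimension four
-/

namespace Pool.Agent.H8C4

open Set Pool.Agent.Y512

theorem top_spec (c : ℕ) (A : List Rc) :
    top c A = c ∨ ∃ r ∈ A, r.2.2.1 ≤ c ∧ top c A = r.2.2.2 := by
  induction A with
  | nil => exact Or.inl rfl
  | cons r A ih =>
    unfold top
    by_cases h : (Nat.ble r.2.2.1 c && Nat.blt (top c A) r.2.2.2) = true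
    · rw [h, cond_true]
      simp only [Bool.and_eq_true, Nat.ble_eq] at h
      exact Or.inr ⟨r, List.mem_cons_self, h.1, rfl⟩
    · rw [Bool.not_eq_true] at h
      rw [h, cond_false]
      rcases ih with h1 | ⟨r', hr', h1, h2⟩
      · exact Or.inl h1
      · exact Or.inr ⟨r', List.mem_cons_of_mem _ hr', h1, h2⟩

theorem chain_spec (A : List Rc) (f : ℕ) :
    ∀ c : ℕ, c < 1400 → chain A f c = true → ∀ v : ℝ, (c : ℝ) ≤ v → v ≤ 1400 →
      ∃ r ∈ A, (r.2.2.1 : ℝ) ≤ v ∧ v ≤ (r.2.2.2 : ℝ) := by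
  induction f with
  | zero => intro c _ h; simp [chain] at h
  | succ f ih =>
    intro c hc h v hv1 hv2
    unfold chain at h
    rw [Bool.or_eq_true] at h
    rcases h with h | h
    · rw [Nat.ble_eq] at h
      omega
    · rw [Bool.and_eq_true] at h
      obtain ⟨h1, h2⟩ := h
      rw [Nat.blt_eq] at h1
      by_cases hvm : v ≤ (top c A : ℝ)
      · rcases top_spec c A with h3 | ⟨r, hr, h3, h4⟩
        · omega
        · refine ⟨r, hr, ?_, ?_⟩
          · exact le_trans (by exact_mod_cast h3) hv1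
          · rw [h4] at hvm
            exact hvm
      · push Not at hvm
        apply ih _ _ h2 v hvm.le hv2
        have : (top c A : ℝ) < 1400 := hvm.trans_le hv2
        exact_mod_cast this

theorem act_spec (x : ℕ) (A : List Rc) (r : Rc) (hr : r ∈ act x A) : r ∈ A ∧ r.1 ≤ x := by
  induction A with
  | nil => simp [act] at hr
  | cons s A ih =>
    unfold act at hr
    by_cases h : (Nat.ble s.1 x && Nat.blt x s.2.1) = true
    · rw [h, cond_true] at hr
      rcases List.mem_cons.1 hr with rfl | hr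
      · simp only [Bool.and_eq_true, Nat.ble_eq] at h
        exact ⟨List.mem_cons_self, h.1⟩
      · exact ⟨List.mem_cons_of_mem _ (ih hr).1, (ih hr).2⟩
    · rw [Bool.not_eq_true] at h
      rw [h, cond_false] at hr
      exact ⟨List.mem_cons_of_mem _ (ih hr).1, (ih hr).2⟩

theorem mh_spec (A : List Rc) (r : Rc) (hr : r ∈ A) : mh A ≤ r.2.1 := by
  induction A with
  | nil => simp at hr
  | cons s A ih =>
    unfold mh
    by_cases h : Nat.blt s.2.1 (mh A) = true
    · rw [h, cond_true]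
      rw [Nat.blt_eq] at h
      rcases List.mem_cons.1 hr with rfl | hr
      · exact le_rfl
      · exact h.le.trans (ih hr)
    · have h' := h
      rw [Bool.not_eq_true] at h
      rw [h, cond_false]
      rw [Nat.blt_eq, not_lt] at h'
      rcases List.mem_cons.1 hr with rfl | hr
      · exact h'
      · exact ih hr

theorem sweep_spec (R : List Rc) (f : ℕ) :
    ∀ x : ℕ, x < 1400 → sweep R f x = true → ∀ u v : ℝ, (x : ℝ) ≤ u → u ≤ 1400 → 0 ≤ v →
      v ≤ 1400 → ∃ r ∈ R, (r.1 : ℝ) ≤ u ∧ u ≤ (r.2.1 : ℝ) ∧ (r.2.2.1 : ℝ) ≤ v ∧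
        v ≤ (r.2.2.2 : ℝ) := by
  induction f with
  | zero => intro c _ h; simp [sweep] at h
  | succ f ih =>
    intro x hx h u v hu1 hu2 hv1 hv2
    unfold sweep at h
    rw [Bool.or_eq_true] at h
    rcases h with h | h
    · rw [Nat.ble_eq] at h
      omega
    · rw [Bool.and_eq_true, Bool.and_eq_true] at h
      obtain ⟨⟨h1, h2⟩, h3⟩ := h
      rw [Nat.blt_eq] at h2
      by_cases hum : u ≤ (mh (act x R) : ℝ)
      · obtain ⟨r, hr, hr1, hr2⟩ := chain_spec _ _ 0 (by norm_num) h1 v (by simpa using hv1) hv2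
        obtain ⟨hr3, hr4⟩ := act_spec _ _ _ hr
        refine ⟨r, hr3, ?_, ?_, hr1, hr2⟩
        · exact le_trans (by exact_mod_cast hr4) hu1
        · exact hum.trans (by exact_mod_cast mh_spec _ _ hr)
      · push Not at hum
        apply ih _ _ h3 u v hum.le hu2 hv1 hv2
        have : (mh (act x R) : ℝ) < 1400 := hum.trans_le hu2
        exact_mod_cast this

theorem face_spec (i j k l : Fin 4) (s t : ℕ) (L : List Bx) (r : Rc)
    (hr : r ∈ face i j k l s t L) :
    ∃ b ∈ L, b.lo i ≤ s ∧ s ≤ b.hi i ∧ b.lo j ≤ t ∧ t ≤ b.hi j ∧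
      r = (b.lo k, b.hi k, b.lo l, b.hi l) := by
  induction L with
  | nil => simp [face] at hr
  | cons b L ih =>
    unfold face at hr
    by_cases h : (Nat.ble (b.lo i) s && Nat.ble s (b.hi i) && Nat.ble (b.lo j) t &&
        Nat.ble t (b.hi j)) = true
    · rw [h, cond_true] at hr
      rcases List.mem_cons.1 hr with rfl | hr
      · simp only [Bool.and_eq_true, Nat.ble_eq] at h
        exact ⟨b, List.mem_cons_self, h.1.1.1, h.1.1.2, h.1.2, h.2, rfl⟩
      · obtain ⟨b', hb', h'⟩ := ih hr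
        exact ⟨b', List.mem_cons_of_mem _ hb', h'⟩
    · rw [Bool.not_eq_true] at h
      rw [h, cond_false] at hr
      obtain ⟨b', hb', h'⟩ := ih hr
      exact ⟨b', List.mem_cons_of_mem _ hb', h'⟩

/-- the box contains the point `y` of the cube `[-1,1]^4` -/
def Bx.has (b : Bx) (y : Fin 4 → ℝ) : Prop :=
  ∀ m, (b.lo m : ℝ) ≤ 700 * (y m + 1) ∧ 700 * (y m + 1) ≤ (b.hi m : ℝ)

theorem cover_face1 {i j k l : Fin 4} (hall : ∀ m, m = i ∨ m = j ∨ m = k ∨ m = l)
    {s t : ℕ} {L : List Bx} (h : sweep (face i j k l s t L) 40 0 = true)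
    {y : Fin 4 → ℝ} (hy : ∀ m, |y m| ≤ 1) (hi : 700 * (y i + 1) = (s : ℝ))
    (hj : 700 * (y j + 1) = (t : ℝ)) : ∃ b ∈ L, b.has y := by
  have hk := abs_le.1 (hy k)
  have hl := abs_le.1 (hy l)
  obtain ⟨r, hr, h1, h2, h3, h4⟩ := sweep_spec _ _ 0 (by norm_num) h (700 * (y k + 1))
    (700 * (y l + 1)) (by push_cast; linarith) (by linarith) (by linarith) (by linarith)
  obtain ⟨b, hb, b1, b2, b3, b4, rfl⟩ := face_spec _ _ _ _ _ _ _ _ hr
  refine ⟨b, hb, fun m => ?_⟩
  rcases hall m with rfl | rfl | rfl | rfl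
  · rw [hi]; exact ⟨by exact_mod_cast b1, by exact_mod_cast b2⟩
  · rw [hj]; exact ⟨by exact_mod_cast b3, by exact_mod_cast b4⟩
  · exact ⟨h1, h2⟩
  · exact ⟨h3, h4⟩

theorem cover_face {i j k l : Fin 4} (hall : ∀ m, m = i ∨ m = j ∨ m = k ∨ m = l)
    {L : List Bx} (h : faceOK i j k l L = true)
    {y : Fin 4 → ℝ} (hy : ∀ m, |y m| ≤ 1) (hi : |y i| = 1) (hj : |y j| = 1) :
    ∃ b ∈ L, b.has y := by
  simp only [faceOK, Bool.and_eq_true] at h
  obtain ⟨⟨⟨h00, h01⟩, h10⟩, h11⟩ := h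
  rcases (abs_eq zero_le_one).1 hi with h1 | h1 <;> rcases (abs_eq zero_le_one).1 hj with h2 | h2
  · exact cover_face1 hall h11 hy (by rw [h1]; norm_num) (by rw [h2]; norm_num)
  · exact cover_face1 hall h10 hy (by rw [h1]; norm_num) (by rw [h2]; norm_num)
  · exact cover_face1 hall h01 hy (by rw [h1]; norm_num) (by rw [h2]; norm_num)
  · exact cover_face1 hall h00 hy (by rw [h1]; norm_num) (by rw [h2]; norm_num)

/-- the boxes cover the two-dimensional skeleton of the tesseract -/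
theorem bxs_cover {y : Fin 4 → ℝ} (hy : y ∈ Skel 4) : ∃ b ∈ bxs, b.has y := by
  obtain ⟨hall, i, j, hij, hi, hj⟩ := hy
  have key : ∀ i j : Fin 4, i < j → |y i| = 1 → |y j| = 1 → ∃ b ∈ bxs, b.has y := by
    intro i j hij hi hj
    fin_cases i <;> fin_cases j <;> first | exact absurd hij (by decide) | skip
    · exact cover_face (by decide) ok01 hall hi hj
    · exact cover_face (by decide) ok02 hall hi hj
    · exact cover_face (by decide) ok03 hall hi hj
    · exact cover_face (by decide) ok12 hall hi hj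
    · exact cover_face (by decide) ok13 hall hi hj
    · exact cover_face (by decide) ok23 hall hi hj
  rcases lt_or_gt_of_ne hij with h | h
  · exact key i j h hi hj
  · exact key j i h hj hi

/-- centre and half lengths of a box in the cube `[-1,1]^4` -/
noncomputable def Bx.z (b : Bx) (m : Fin 4) : ℝ := ((b.lo m : ℝ) + b.hi m) / 1400 - 1
noncomputable def Bx.ρ (b : Bx) (m : Fin 4) : ℝ := ((b.hi m : ℝ) - b.lo m) / 1400

theorem Bx.has_abs {b : Bx} {y : Fin 4 → ℝ} (h : b.has y) (m : Fin 4) :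
    |y m - b.z m| ≤ b.ρ m := by
  obtain ⟨h1, h2⟩ := h m
  rw [abs_le]
  simp only [Bx.z, Bx.ρ]
  constructor <;> linarith

theorem Bx.ok_spec {b : Bx} (h : b.ok = true) : (∀ m, 0 ≤ b.ρ m) ∧ ∑ m, b.ρ m < 1 := by
  simp only [Bx.ok, Bool.and_eq_true, Nat.ble_eq, Nat.blt_eq] at h
  obtain ⟨⟨⟨⟨h0, h1⟩, h2⟩, h3⟩, h4⟩ := h
  have e0 : (b.l0 : ℝ) ≤ b.h0 := by exact_mod_cast h0
  have e1 : (b.l1 : ℝ) ≤ b.h1 := by exact_mod_cast h1
  have e2 : (b.l2 : ℝ) ≤ b.h2 := by exact_mod_cast h2
  have e3 : (b.l3 : ℝ) ≤ b.h3 := by exact_mod_cast h3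
  have e4 : (b.h0 + b.h1 + b.h2 + b.h3 : ℝ) < 1400 + b.l0 + b.l1 + b.l2 + b.l3 := by
    exact_mod_cast h4
  constructor
  · intro m
    unfold Bx.ρ
    apply div_nonneg _ (by norm_num)
    fin_cases m
    · simpa [Bx.lo, Bx.hi] using e0
    · simpa [Bx.lo, Bx.hi] using e1
    · simpa [Bx.lo, Bx.hi] using e2
    · simpa [Bx.lo, Bx.hi] using e3
  · rw [Fin.sum_univ_four]
    change ((b.h0 : ℝ) - b.l0) / 1400 + ((b.h1 : ℝ) - b.l1) / 1400 + ((b.h2 : ℝ) - b.l2) / 1400 +
      ((b.h3 : ℝ) - b.l3) / 1400 < 1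
    linarith

/-- a body in normal form in dimension four -/
theorem covN_NF4 {K : Set (Fin 4 → ℝ)} {a : Fin 4 → Bool → Fin 4 → ℝ} (h : NF K a) :
    CovN 93 K := by
  classical
  have hbox : ∀ b : Bx, b ∈ bxs → ∃ t : Fin 4 → ℝ, ∀ y, b.has y → Lit K t y := by
    intro b hb
    have hok : b.ok = true := by
      have := bxs_ok
      rw [List.all_eq_true] at this
      exact this b hb
    obtain ⟨h1, h2⟩ := Bx.ok_spec hok
    obtain ⟨t, ht⟩ := box_fits (by norm_num) h.conv h.chords b.z b.ρ h1 h2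
    exact ⟨t, fun y hy => ⟨1, one_pos, by rw [one_smul]; exact ht y (Bx.has_abs hy)⟩⟩
  choose! tb htb using hbox
  have hcon : ∀ i : Fin 4, ∃ t : Fin 4 → ℝ, Lit K t (a i true) := by
    intro i
    obtain ⟨c, hc⟩ := h.inte
    refine ⟨c - a i true, 1, one_pos, ?_⟩
    rw [one_smul, add_sub_cancel]
    exact hc
  choose tc htc using hcon
  refine covN_of_lit (by norm_num) h 93
    ((bxs.map tb).toFinset ∪ Finset.univ.image tc) ?_ ?_ ?_
  · refine (Finset.card_union_le _ _).trans ?_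
    have e1 : ((bxs.map tb).toFinset).card ≤ 89 := by
      refine (List.toFinset_card_le _).trans ?_
      rw [List.length_map, bxs_length]
    have e2 : (Finset.univ.image tc).card ≤ 4 := by
      refine Finset.card_image_le.trans ?_
      simp
    omega
  · intro y hy
    obtain ⟨b, hb, hby⟩ := bxs_cover hy
    refine ⟨tb b, ?_, htb b hb y hby⟩
    rw [Finset.mem_union, List.mem_toFinset]
    exact Or.inl (List.mem_map_of_mem hb)
  · intro i
    refine ⟨tc i, ?_, htc i⟩
    rw [Finset.mem_union]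
    exact Or.inr (Finset.mem_image_of_mem _ (Finset.mem_univ i))

/-- every convex body in `ℝ⁴` is covered by at most 93 translates of its interior -/
theorem covN93 (K : Set (EuclideanSpace ℝ (Fin 4))) (hK : Convex ℝ K) (hc : IsCompact K)
    (hi : (interior K).Nonempty) : CovN 93 K := by
  let A : EuclideanSpace ℝ (Fin 4) ≃L[ℝ] (Fin 4 → ℝ) := EuclideanSpace.equiv (Fin 4) ℝ
  apply covN_of_image A 0
  apply covN_of_NF (by norm_num) 93 fun K a h => covN_NF4 h
  · rintro _ ⟨x, hx, rfl⟩ _ ⟨y, hy, rfl⟩ s t hs ht hst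
    refine ⟨s • x + t • y, hK hx hy hs ht hst, ?_⟩
    simp
  · exact hc.image (by fun_prop)
  · have : interior ((fun x => A x + 0) '' K) = (fun x => A x + 0) '' interior K := by
      have := (A.toHomeomorph.trans (Homeomorph.addRight 0)).image_interior K
      exact this.symm
    rw [this]
    exact hi.image _

end Pool.Agent.H8C4
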